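import Mathlib

open Matrix

namespace Pool.Agent.NormalDefect

/-- `Y`, of size `m + k`, is a normal completion of the `m × m` matrix `X`: it is normal and its
leading principal `m × m` submatrix is `X`. -/
def IsNormalCompletion {m : ℕ} (X : Matrix (Fin m) (Fin m) ℂ) (k : ℕ)
    (Y : Matrix (Fin (m + k)) (Fin (m + k)) ℂ) : Prop :=
  Y * Yᴴ = Yᴴ * Y ∧ ∀ i j : Fin m, Y (Fin.castAdd k i) (Fin.castAdd k j) = X i j

/-- The normal defect `nd X`: the least `k` for which a normal completion of size `m + k` exists. -/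
noncomputable def nd {m : ℕ} (X : Matrix (Fin m) (Fin m) ℂ) : ℕ :=
  sInf {k : ℕ | ∃ Y : Matrix (Fin (m + k)) (Fin (m + k)) ℂ, IsNormalCompletion X k Y}

/-- The self-commutator `[X, X*] = X X* - X* X` is Hermitian. -/
lemma isHermitian_comm {m : ℕ} (X : Matrix (Fin m) (Fin m) ℂ) :
    (X * Xᴴ - Xᴴ * X).IsHermitian := by
  simp [Matrix.IsHermitian, conjTranspose_sub, conjTranspose_mul]

/-- `i₊(M)`: the number of positive eigenvalues (with multiplicity) of the Hermitian matrix `M`. -/
noncomputable def iPos {m : ℕ} {M : Matrix (Fin m) (Fin m) ℂ} (hM : M.IsHermitian) : ℕ :=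
  (Finset.univ.filter fun i => 0 < hM.eigenvalues i).card

/-- `i₋(M)`: the number of negative eigenvalues (with multiplicity) of the Hermitian matrix `M`. -/
noncomputable def iNeg {m : ℕ} {M : Matrix (Fin m) (Fin m) ℂ} (hM : M.IsHermitian) : ℕ :=
  (Finset.univ.filter fun i => hM.eigenvalues i < 0).card

/-- `ε(X) = max {i₊[X,X*], i₋[X,X*]}`. -/
noncomputable def eps {m : ℕ} (X : Matrix (Fin m) (Fin m) ℂ) : ℕ :=
  max (iPos (isHermitian_comm X)) (iNeg (isHermitian_comm X))

/-- The cyclic weighted shift with weights `a_1, …, a_n` (0-based: entry `(i, i+1)` is `a i` for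
`i < n - 1`, and entry `(n-1, 0)` is `a (n-1)`; all other entries vanish). -/
def cyc {n : ℕ} (a : Fin n → ℂ) : Matrix (Fin n) (Fin n) ℂ :=
  fun i j => if (j : ℕ) = ((i : ℕ) + 1) % n then a i else 0

/-- The truncated weighted shift of size `n + 1` with weights `a_1, …, a_n` (0-based: entry
`(i, i+1)` is `a i` for `i < n`; all other entries vanish). -/
def trunc {n : ℕ} (a : Fin n → ℂ) : Matrix (Fin (n + 1)) (Fin (n + 1)) ℂ :=
  fun i j => if h : (i : ℕ) + 1 = (j : ℕ) then a ⟨i, by omega⟩ else 0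

end Pool.Agent.NormalDefect
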