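import Pool.Agent.NormalDefect.Upper

open Matrix

namespace Pool.Agent.NormalDefect

/-- The `(1,1)` block of the normality relation for a completion. -/
lemma block11 {m k : ℕ} {X : Matrix (Fin m) (Fin m) ℂ} {Y : Matrix (Fin (m + k)) (Fin (m + k)) ℂ}
    (h : IsNormalCompletion X k Y) (i j : Fin m) :
    (∑ l : Fin k, star (Y (Fin.natAdd m l) (Fin.castAdd k i)) * Y (Fin.natAdd m l) (Fin.castAdd k j))
      - (∑ l : Fin k, Y (Fin.castAdd k i) (Fin.natAdd m l) *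
          star (Y (Fin.castAdd k j) (Fin.natAdd m l)))
      = (X * Xᴴ - Xᴴ * X) i j := by
  obtain ⟨hn, hX⟩ := h
  have h1 := congrFun (congrFun hn (Fin.castAdd k i)) (Fin.castAdd k j)
  rw [Matrix.mul_apply, Matrix.mul_apply, Fin.sum_univ_add, Fin.sum_univ_add] at h1
  simp only [Matrix.conjTranspose_apply, hX] at h1
  rw [Matrix.sub_apply, Matrix.mul_apply, Matrix.mul_apply]
  simp only [Matrix.conjTranspose_apply]
  linear_combination -h1

/-- The `(1,2)` block of the normality relation for a completion. -/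
lemma block12 {m k : ℕ} {X : Matrix (Fin m) (Fin m) ℂ} {Y : Matrix (Fin (m + k)) (Fin (m + k)) ℂ}
    (h : IsNormalCompletion X k Y) (i : Fin m) (r : Fin k) :
    (∑ x : Fin m, X i x * star (Y (Fin.natAdd m r) (Fin.castAdd k x)))
      + (∑ l : Fin k, Y (Fin.castAdd k i) (Fin.natAdd m l) *
          star (Y (Fin.natAdd m r) (Fin.natAdd m l)))
      = (∑ x : Fin m, star (X x i) * Y (Fin.castAdd k x) (Fin.natAdd m r))
      + (∑ l : Fin k, star (Y (Fin.natAdd m l) (Fin.castAdd k i)) *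
          Y (Fin.natAdd m l) (Fin.natAdd m r)) := by
  obtain ⟨hn, hX⟩ := h
  have h1 := congrFun (congrFun hn (Fin.castAdd k i)) (Fin.natAdd m r)
  rw [Matrix.mul_apply, Matrix.mul_apply, Fin.sum_univ_add, Fin.sum_univ_add] at h1
  simp only [Matrix.conjTranspose_apply, hX] at h1
  exact h1

lemma sq_norm_sub {x y : ℂ} {d : ℝ} (h : star x * x - y * star y = (d : ℂ)) :
    ‖x‖ ^ 2 - ‖y‖ ^ 2 = d := by
  have h1 : star x * x = ((‖x‖ ^ 2 : ℝ) : ℂ) := by
    rw [mul_comm]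
    push_cast
    exact Complex.mul_conj' x
  have h2 : y * star y = ((‖y‖ ^ 2 : ℝ) : ℂ) := by
    push_cast
    exact Complex.mul_conj' y
  rw [h1, h2] at h
  exact_mod_cast h

lemma norm_mul_eq {x y z w : ℂ} (h : star x * y - z * star w = 0) : ‖x‖ * ‖y‖ = ‖z‖ * ‖w‖ := by
  have h1 : star x * y = z * star w := sub_eq_zero.mp h
  have h2 := congrArg norm h1
  simpa using h2

/-- no completion with `k = 0`: the commutator would vanish -/
lemma not_zero {m : ℕ} {X : Matrix (Fin m) (Fin m) ℂ} (i : Fin m)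
    (hi : (X * Xᴴ - Xᴴ * X) i i ≠ 0) : ¬ ∃ Y, IsNormalCompletion X 0 Y := by
  rintro ⟨Y, hY⟩
  have := block11 hY i i
  simp only [Finset.univ_eq_empty, Finset.sum_empty, sub_zero] at this
  exact hi this.symm

lemma vanish_of {c0 b0 c2 b2 : ℂ} {d : ℝ} (h0 : star c0 * c0 - b0 * star b0 = 0)
    (h02 : star c0 * c2 - b0 * star b2 = 0) (h2 : star c2 * c2 - b2 * star b2 = (d : ℂ))
    (hd : 0 < d) : c0 = 0 ∧ b0 = 0 := by
  have e0 : ‖c0‖ ^ 2 - ‖b0‖ ^ 2 = 0 := sq_norm_sub (by simpa using h0)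
  have e2 := sq_norm_sub h2
  have e02 := norm_mul_eq h02
  have hcb : ‖c0‖ = ‖b0‖ := by
    have : ‖c0‖ ^ 2 = ‖b0‖ ^ 2 := by linarith
    exact (sq_eq_sq₀ (norm_nonneg _) (norm_nonneg _)).mp this
  have hb : ‖b0‖ = 0 := by
    by_contra hne
    rw [hcb] at e02
    have := mul_left_cancel₀ hne e02
    rw [this] at e2
    linarith
  exact ⟨norm_eq_zero.mp (hcb.trans hb), norm_eq_zero.mp hb⟩

lemma not_one_Ac {α β : ℝ} (hβ : 0 < β) (hαβ : β < α) :
    ¬ ∃ Y, IsNormalCompletion (Ac α β) 1 Y := by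
  rintro ⟨Y, hY⟩
  have hs : 0 < α ^ 2 - β ^ 2 := by nlinarith
  set b : Fin 4 → ℂ := fun i => Y (Fin.castAdd 1 i) (Fin.natAdd 4 0) with hb
  set c : Fin 4 → ℂ := fun i => Y (Fin.natAdd 4 0) (Fin.castAdd 1 i) with hc
  have h11 : ∀ i j, star (c i) * c j - b i * star (b j) =
      Matrix.diagonal (fun i => ((![0, 0, α ^ 2 - β ^ 2, β ^ 2 - α ^ 2] i : ℝ) : ℂ)) i j := by
    intro i j
    have := block11 hY i j
    rw [comm_Ac, Fin.sum_univ_one, Fin.sum_univ_one] at this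
    exact this
  have g00 : star (c 0) * c 0 - b 0 * star (b 0) = 0 := by simpa using h11 0 0
  have g11 : star (c 1) * c 1 - b 1 * star (b 1) = 0 := by simpa using h11 1 1
  have g02 : star (c 0) * c 2 - b 0 * star (b 2) = 0 := by simpa using h11 0 2
  have g12 : star (c 1) * c 2 - b 1 * star (b 2) = 0 := by simpa using h11 1 2
  have g22 : star (c 2) * c 2 - b 2 * star (b 2) = ((α ^ 2 - β ^ 2 : ℝ) : ℂ) := by
    simpa using h11 2 2
  have g33 : star (c 3) * c 3 - b 3 * star (b 3) = ((β ^ 2 - α ^ 2 : ℝ) : ℂ) := by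
    simpa using h11 3 3
  obtain ⟨hc0, hb0⟩ := vanish_of g00 g02 g22 hs
  obtain ⟨hc1, _⟩ := vanish_of g11 g12 g22 hs
  have h12 := block12 hY 0 0
  simp only [Fin.sum_univ_four, Finset.univ_unique, Fin.default_eq_zero, Finset.sum_singleton] at h12
  change _ * star (c 0) + _ * star (c 1) + _ * star (c 2) + _ * star (c 3) + b 0 * star _ =
    star _ * b 0 + star _ * b 1 + star _ * b 2 + star _ * b 3 + star (c 0) * _ at h12
  rw [hc0, hb0, hc1] at h12
  have hb3 : b 3 = 0 := by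
    simp [Ac, hβ.ne'] at h12
    exact h12
  have e3 := sq_norm_sub g33
  rw [hb3] at e3
  simp at e3
  nlinarith [sq_nonneg ‖c 3‖]

lemma not_one_At {α β : ℝ} (hβ : 0 < β) (hαβ : β < α) :
    ¬ ∃ Y, IsNormalCompletion (At α β) 1 Y := by
  rintro ⟨Y, hY⟩
  have hs : 0 < α ^ 2 - β ^ 2 := by nlinarith
  set b : Fin 5 → ℂ := fun i => Y (Fin.castAdd 1 i) (Fin.natAdd 5 0) with hb
  set c : Fin 5 → ℂ := fun i => Y (Fin.natAdd 5 0) (Fin.castAdd 1 i) with hc
  have h11 : ∀ i j, star (c i) * c j - b i * star (b j) =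
      Matrix.diagonal (fun i =>
        ((![β ^ 2, 0, α ^ 2 - β ^ 2, β ^ 2 - α ^ 2, - β ^ 2] i : ℝ) : ℂ)) i j := by
    intro i j
    have := block11 hY i j
    rw [comm_At, Fin.sum_univ_one, Fin.sum_univ_one] at this
    exact this
  have g00 : star (c 0) * c 0 - b 0 * star (b 0) = ((β ^ 2 : ℝ) : ℂ) := by simpa using h11 0 0
  have g02 : star (c 0) * c 2 - b 0 * star (b 2) = 0 := by simpa using h11 0 2
  have g22 : star (c 2) * c 2 - b 2 * star (b 2) = ((α ^ 2 - β ^ 2 : ℝ) : ℂ) := by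
    simpa using h11 2 2
  have e0 := sq_norm_sub g00
  have e2 := sq_norm_sub g22
  have e02 := norm_mul_eq g02
  have l0 : ‖b 0‖ < ‖c 0‖ := by
    have : ‖b 0‖ ^ 2 < ‖c 0‖ ^ 2 := by nlinarith
    exact lt_of_pow_lt_pow_left₀ 2 (norm_nonneg _) this
  have l2 : ‖b 2‖ < ‖c 2‖ := by
    have : ‖b 2‖ ^ 2 < ‖c 2‖ ^ 2 := by nlinarith
    exact lt_of_pow_lt_pow_left₀ 2 (norm_nonneg _) this
  have := mul_lt_mul'' l0 l2 (norm_nonneg _) (norm_nonneg _)
  linarith

lemma nd_eq_two {m : ℕ} {X : Matrix (Fin m) (Fin m) ℂ} (h2 : ∃ Y, IsNormalCompletion X 2 Y)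
    (h1 : ¬ ∃ Y, IsNormalCompletion X 1 Y) (h0 : ¬ ∃ Y, IsNormalCompletion X 0 Y) : nd X = 2 := by
  unfold nd
  have hle : sInf {k : ℕ | ∃ Y, IsNormalCompletion X k Y} ≤ 2 := Nat.sInf_le h2
  have hmem : sInf {k : ℕ | ∃ Y, IsNormalCompletion X k Y} ∈
      {k : ℕ | ∃ Y, IsNormalCompletion X k Y} := Nat.sInf_mem ⟨2, h2⟩
  have hne0 : sInf {k : ℕ | ∃ Y, IsNormalCompletion X k Y} ≠ 0 := by
    intro h
    rw [h] at hmem
    exact h0 hmem
  have hne1 : sInf {k : ℕ | ∃ Y, IsNormalCompletion X k Y} ≠ 1 := by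
    intro h
    rw [h] at hmem
    exact h1 hmem
  omega

theorem nd_Ac {α β : ℝ} (hβ : 0 < β) (hαβ : β < α) : nd (Ac α β) = 2 := by
  have hs : 0 < α ^ 2 - β ^ 2 := by nlinarith
  refine nd_eq_two ?_ (not_one_Ac hβ hαβ) (not_zero 2 ?_)
  · set s := Real.sqrt (α ^ 2 - β ^ 2) with hsdef
    have hs2 : (s : ℂ) ^ 2 = (α : ℂ) ^ 2 - (β : ℂ) ^ 2 := by
      have := Real.sq_sqrt hs.le
      rw [← hsdef] at this
      exact_mod_cast this
    refine ⟨Yc α β s, Yc_normal hs2, ?_⟩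
    intro i j
    fin_cases i <;> fin_cases j <;> rfl
  · rw [comm_Ac]
    simp only [Matrix.diagonal_apply_eq]
    norm_cast
    simp
    linarith

theorem nd_At {α β : ℝ} (hβ : 0 < β) (hαβ : β < α) : nd (At α β) = 2 := by
  have hs : 0 < α ^ 2 - β ^ 2 := by nlinarith
  refine nd_eq_two ?_ (not_one_At hβ hαβ) (not_zero 2 ?_)
  · set s := Real.sqrt (α ^ 2 - β ^ 2) with hsdef
    have hs3 : s ^ 2 = α ^ 2 - β ^ 2 := Real.sq_sqrt hs.le
    have hs2 : (s : ℂ) ^ 2 = (α : ℂ) ^ 2 - (β : ℂ) ^ 2 := by exact_mod_cast hs3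
    have hβ0 : β ≠ 0 := hβ.ne'
    have k1 : s * (α * s / β) = α * (s ^ 2 / β) := by field_simp
    have k4 : β ^ 2 + (α * s / β) ^ 2 = α ^ 2 + (s ^ 2 / β) ^ 2 := by
      have : β ^ 2 ≠ 0 := by positivity
      field_simp
      have : s ^ 4 = (α ^ 2 - β ^ 2) ^ 2 := by rw [← hs3]; ring
      nlinarith [hs3, this]
    refine ⟨Yt α β s (α * s / β) (s ^ 2 / β), Yt_normal hs2 ?_ ?_, ?_⟩
    · exact_mod_cast k1
    · exact_mod_cast k4
    intro i j
    fin_cases i <;> fin_cases j <;> rfl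
  · rw [comm_At]
    simp only [Matrix.diagonal_apply_eq]
    norm_cast
    simp
    linarith

end Pool.Agent.NormalDefect
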