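import Pool.Agent.NormalDefect.Defs

open Matrix

namespace Pool.Agent.NormalDefect

/-- Eigenvalue counts of a Hermitian matrix which is a real diagonal matrix. -/
lemma count_diagonal {m : ℕ} {M : Matrix (Fin m) (Fin m) ℂ} (hM : M.IsHermitian)
    (d : Fin m → ℝ) (hd : M = Matrix.diagonal (fun i => (d i : ℂ))) (p : ℝ → Prop)
    [DecidablePred p] :
    (Finset.univ.filter fun i => p (hM.eigenvalues i)).card =
      (Finset.univ.filter fun i => p (d i)).card := by
  have h1 : M.charpoly.roots = Multiset.map (fun i => ((hM.eigenvalues i : ℝ) : ℂ))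
      Finset.univ.val := by
    have := hM.roots_charpoly_eq_eigenvalues
    simpa [Function.comp_def] using this
  have h2 : M.charpoly.roots = Multiset.map (fun i => ((d i : ℝ) : ℂ)) Finset.univ.val := by
    rw [hd, Matrix.charpoly_diagonal]
    rw [Polynomial.roots_prod]
    · simp
    · exact Finset.prod_ne_zero_iff.mpr fun i _ => Polynomial.X_sub_C_ne_zero _
  have h3 : Multiset.map (fun i => hM.eigenvalues i) Finset.univ.val =
      Multiset.map (fun i => d i) Finset.univ.val := by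
    have h4 := h1.symm.trans h2
    have h5 := congrArg (Multiset.map Complex.re) h4
    simpa only [Multiset.map_map, Function.comp_def, Complex.ofReal_re] using h5
  have h6 := congrArg (Multiset.countP p) h3
  rw [Multiset.countP_map, Multiset.countP_map] at h6
  exact h6

/-- The cyclic shift with weights `(β, β, α, β)`. -/
def Ac (α β : ℝ) : Matrix (Fin 4) (Fin 4) ℂ :=
  !![0, (β : ℂ), 0, 0; 0, 0, (β : ℂ), 0; 0, 0, 0, (α : ℂ); (β : ℂ), 0, 0, 0]

/-- The truncated shift with weights `(β, β, α, β)`. -/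
def At (α β : ℝ) : Matrix (Fin 5) (Fin 5) ℂ :=
  !![0, (β : ℂ), 0, 0, 0; 0, 0, (β : ℂ), 0, 0; 0, 0, 0, (α : ℂ), 0; 0, 0, 0, 0, (β : ℂ);
    0, 0, 0, 0, 0]

lemma cyc_eq (α β : ℝ) : cyc ![(β : ℂ), β, α, β] = Ac α β := by
  ext i j
  fin_cases i <;> fin_cases j <;> rfl

lemma trunc_eq (α β : ℝ) : trunc ![(β : ℂ), β, α, β] = At α β := by
  ext i j
  fin_cases i <;> fin_cases j <;> rfl

/-- The self-commutator of the cyclic shift with weights `(β, β, α, β)`. -/
lemma comm_Ac (α β : ℝ) : Ac α β * (Ac α β)ᴴ - (Ac α β)ᴴ * Ac α β =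
    Matrix.diagonal (fun i => ((![0, 0, α ^ 2 - β ^ 2, β ^ 2 - α ^ 2] i : ℝ) : ℂ)) := by
  ext i j
  simp only [Matrix.sub_apply, Matrix.mul_apply, Matrix.conjTranspose_apply, Fin.sum_univ_four]
  fin_cases i <;> fin_cases j <;> simp [Ac] <;> ring

lemma comm_At (α β : ℝ) : At α β * (At α β)ᴴ - (At α β)ᴴ * At α β =
    Matrix.diagonal (fun i =>
      ((![β ^ 2, 0, α ^ 2 - β ^ 2, β ^ 2 - α ^ 2, - β ^ 2] i : ℝ) : ℂ)) := by
  ext i j
  simp only [Matrix.sub_apply, Matrix.mul_apply, Matrix.conjTranspose_apply, Fin.sum_univ_five]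
  fin_cases i <;> fin_cases j <;> simp [At] <;> ring

lemma eps_Ac {α β : ℝ} (hβ : 0 < β) (hαβ : β < α) : eps (Ac α β) = 1 := by
  have h1 : β ^ 2 < α ^ 2 := by nlinarith
  unfold eps iPos iNeg
  rw [count_diagonal _ _ (comm_Ac α β) (fun x => 0 < x),
    count_diagonal _ _ (comm_Ac α β) (fun x => x < 0)]
  have h2 : (Finset.univ.filter fun i : Fin 4 =>
      0 < ![0, 0, α ^ 2 - β ^ 2, β ^ 2 - α ^ 2] i) = {2} := by
    ext i; fin_cases i <;> simp <;> linarith
  have h3 : (Finset.univ.filter fun i : Fin 4 =>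
      ![0, 0, α ^ 2 - β ^ 2, β ^ 2 - α ^ 2] i < 0) = {3} := by
    ext i; fin_cases i <;> simp <;> linarith
  rw [h2, h3]
  simp

lemma eps_At {α β : ℝ} (hβ : 0 < β) (hαβ : β < α) : eps (At α β) = 2 := by
  have h1 : β ^ 2 < α ^ 2 := by nlinarith
  have h0 : 0 < β ^ 2 := by positivity
  unfold eps iPos iNeg
  rw [count_diagonal _ _ (comm_At α β) (fun x => 0 < x),
    count_diagonal _ _ (comm_At α β) (fun x => x < 0)]
  have h2 : (Finset.univ.filter fun i : Fin 5 =>
      0 < ![β ^ 2, 0, α ^ 2 - β ^ 2, β ^ 2 - α ^ 2, - β ^ 2] i) = {0, 2} := by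
    ext i; fin_cases i <;> simp <;> linarith
  have h3 : (Finset.univ.filter fun i : Fin 5 =>
      ![β ^ 2, 0, α ^ 2 - β ^ 2, β ^ 2 - α ^ 2, - β ^ 2] i < 0) = {3, 4} := by
    ext i; fin_cases i <;> simp <;> linarith
  rw [h2, h3]
  decide

end Pool.Agent.NormalDefect
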