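import Pool.Agent.NormalDefect.Main

open Matrix

namespace Pool.Agent.NormalDefect

/-- completion of the cyclic shift -/
def Yc (α β s : ℝ) : Matrix (Fin 6) (Fin 6) ℂ :=
  !![0, (β : ℂ), 0, 0, (s : ℂ), 0;
     0, 0, (β : ℂ), 0, 0, 0;
     0, 0, 0, (α : ℂ), 0, 0;
     (β : ℂ), 0, 0, 0, 0, -(s : ℂ);
     0, 0, (s : ℂ), 0, 0, 0;
     -(s : ℂ), 0, 0, 0, 0, -(β : ℂ)]

/-- completion of the truncated shift -/
def Yt (α β s κ ρ : ℝ) : Matrix (Fin 7) (Fin 7) ℂ :=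
  !![0, (β : ℂ), 0, 0, 0, (s : ℂ), 0;
     0, 0, (β : ℂ), 0, 0, 0, 0;
     0, 0, 0, (α : ℂ), 0, 0, 0;
     0, 0, 0, 0, (β : ℂ), (κ : ℂ), 0;
     0, 0, 0, 0, 0, 0, (β : ℂ);
     0, 0, (s : ℂ), 0, 0, 0, (κ : ℂ);
     (α : ℂ), 0, 0, (ρ : ℂ), 0, 0, 0]

lemma Yc_normal {α β s : ℝ} (hs : (s : ℂ) ^ 2 = (α : ℂ) ^ 2 - (β : ℂ) ^ 2) :
    Yc α β s * (Yc α β s)ᴴ = (Yc α β s)ᴴ * Yc α β s := by
  ext i j
  simp only [Matrix.mul_apply, Matrix.conjTranspose_apply, Fin.sum_univ_six]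
  fin_cases i <;> fin_cases j <;> simp [Yc] <;> first | ring1 | linear_combination hs | linear_combination -hs

lemma Yt_normal {α β s κ ρ : ℝ} (hs : (s : ℂ) ^ 2 = (α : ℂ) ^ 2 - (β : ℂ) ^ 2)
    (h1 : (s : ℂ) * κ = α * ρ) (h4 : (β : ℂ) ^ 2 + (κ : ℂ) ^ 2 = (α : ℂ) ^ 2 + (ρ : ℂ) ^ 2) :
    Yt α β s κ ρ * (Yt α β s κ ρ)ᴴ = (Yt α β s κ ρ)ᴴ * Yt α β s κ ρ := by
  ext i j
  simp only [Matrix.mul_apply, Matrix.conjTranspose_apply, Fin.sum_univ_seven]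
  fin_cases i <;> fin_cases j <;> simp [Yt] <;> first | ring1 | linear_combination hs | linear_combination -hs | linear_combination h1 | linear_combination -h1 | linear_combination h4 | linear_combination -h4

end Pool.Agent.NormalDefect
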